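import Pool.Agent.H15.G.R_seed8.TH648.SH.Sur
import Pool.Agent.H15.G.R_seed8.TH603.Cut.Shape

/-! Emptiness and independence in the plane for every real shape `M ≥ 9`. -/

namespace Pool.Agent.TH648.SH

open Finset Pool.Agent.TH176.Nag Pool.Agent.TH603.Sur Pool.Agent.TH603.Cut Pool.Agent.TH181.NagM
open Filter Topology

/-- the move from the shape of the plane to the right triangle of slope `M = r ^ 2` -/
theorem Mv_nine {r : ℝ} (hr : 3 ≤ r) : Mv (3 * r - 9) (18 - 3 * r) 0 (r ^ 2) := by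
  refine Mv.stepA 1 9 isCoprime_one_left (by norm_num) (by push_cast; linarith)
    (by push_cast; linarith) (by linarith) ?_
  have e1 : ((1 : ℤ) : ℝ) * (((1 : ℤ) : ℝ) * (3 * r - 9) + ((9 : ℤ) : ℝ)) = 3 * r := by
    push_cast; ring
  have e2 : (((9 : ℤ) : ℝ) - ((1 : ℤ) : ℝ) * (18 - 3 * r)) * (((1 : ℤ) : ℝ) * (3 * r - 9) +
      ((9 : ℤ) : ℝ)) / (3 * r - 9 + (18 - 3 * r)) = r ^ 2 - 3 * r := by
    push_cast
    have : (3 * r - 9 + (18 - 3 * r) : ℝ) = 9 := by ring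
    rw [this]; ring
  rw [e1, e2]
  have h := Mv.toRT (μ := 3 * r) (ν := r ^ 2 - 3 * r) (by nlinarith)
  have e3 : 3 * r + (r ^ 2 - 3 * r) = r ^ 2 := by ring
  rw [e3] at h
  exact h

/-- the slope of the Tate triangle -/
theorem Mv_tau {r τ : ℝ} (hr : 3 ≤ r) (k : ℤ) (hk : 3 * r = k + 3 * τ) :
    Mv (3 * (1 + τ)) (3 * (2 - τ)) 0 (r ^ 2) := by
  refine Mv.shear (k - 12) ?_
  have e1 : 3 * (1 + τ) + ((k - 12 : ℤ) : ℝ) = 3 * r - 9 := by push_cast; rw [hk]; ring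
  have e2 : 3 * (2 - τ) - ((k - 12 : ℤ) : ℝ) = 18 - 3 * r := by push_cast; rw [hk]; ring
  rw [e1, e2]
  exact Mv_nine hr

theorem exists_tau (r : ℝ) : ∃ (k : ℤ) (τ : ℝ), 3 * r = k + 3 * τ ∧ 0 < τ ∧ τ < 1 := by
  refine ⟨⌈3 * r⌉ - 1, (3 * r - (⌈3 * r⌉ - 1)) / 3, ?_, ?_, ?_⟩
  · push_cast; ring
  · have := Int.ceil_lt_add_one (3 * r)
    linarith
  · have := Int.le_ceil (3 * r)
    linarith

/-- **emptiness in the plane** -/
theorem Emp_plane {ι : Type} [Fintype ι] {w : ι → ℕ} {d : ℕ} {r : ℝ} (hr : 3 ≤ r)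
    (h : ∀ k : ℕ, r * k ≤ d → r * d - r ^ 2 * k < ((∑ i, (w i - k) : ℕ) : ℝ)) :
    Emp w (TZ d) := by
  have hr0 : 0 < r := by linarith
  obtain ⟨K, hK⟩ := exists_nat_gt ((d : ℝ) / r)
  rw [div_lt_iff₀ hr0] at hK
  -- a slightly larger size
  have hev : ∀ᶠ c in 𝓝 (d : ℝ), ∀ k ∈ range (K + 1),
      ((d : ℝ) < r * k → c < r * k) ∧
      (r * k ≤ d → r * c - r ^ 2 * k < ((∑ i, (w i - k) : ℕ) : ℝ)) := by
    rw [Filter.eventually_all_finset]
    intro k _
    refine Filter.Eventually.and ?_ ?_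
    · by_cases h1 : (d : ℝ) < r * k
      · filter_upwards [Iio_mem_nhds h1] with c hc _ using hc
      · exact Filter.Eventually.of_forall fun c h2 => absurd h2 h1
    · by_cases h1 : r * k ≤ (d : ℝ)
      · have h2 := h k h1
        have h3 : Filter.Tendsto (fun c : ℝ => r * c - r ^ 2 * k) (𝓝 (d : ℝ)) (𝓝 (r * d - r ^ 2 * k)) := by
          apply Continuous.tendsto
          fun_prop
        filter_upwards [h3.eventually (Iio_mem_nhds h2)] with c hc _ using hc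
      · exact Filter.Eventually.of_forall fun c h2 => absurd h2 h1
  obtain ⟨ε, hε, hball⟩ := Metric.eventually_nhds_iff.1 hev
  obtain ⟨c, hc1, hc2⟩ : ∃ c : ℝ, (d : ℝ) < c ∧ c < d + ε := exists_between (by linarith)
  have hc := hball (y := c) (by rw [Real.dist_eq, abs_of_pos (by linarith)]; linarith)
  have hEP : EP w c 0 (r ^ 2) := by
    refine ⟨by positivity, fun E hE0 hE α => ?_⟩
    rw [zero_add, Real.sqrt_sq hr0.le]
    refine (Emp_rows w ⌈α⌉).mono ?_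
    rintro ⟨a, b⟩ ⟨hb, hl, hu⟩
    simp only at hb hl hu
    obtain ⟨k, rfl⟩ := Int.eq_ofNat_of_zero_le hb
    rw [zero_mul, add_zero] at hl
    have h1 : ⌈α⌉ ≤ a := Int.ceil_le.2 hl
    refine ⟨by simp, h1, ?_⟩
    simp only [Int.toNat_natCast]
    have hα := Int.le_ceil α
    have hEr : E * r < r * c := by rw [mul_comm]; exact mul_lt_mul_of_pos_left hE hr0
    have h2 : 0 ≤ E * r - r ^ 2 * (k : ℝ) := by
      have : ((k : ℤ) : ℝ) = (k : ℝ) := by simp
      rw [this] at hu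
      linarith
    have hkc : r * (k : ℝ) < c := by
      have h3 : r * (r * (k : ℝ)) < r * c := by nlinarith
      exact lt_of_mul_lt_mul_left h3 hr0.le
    have hkK : k ∈ range (K + 1) := by
      rw [mem_range]
      by_contra hcon
      have h3 : (K : ℝ) ≤ k := by exact_mod_cast (by omega : K ≤ k)
      have h4 := (hc K (mem_range.2 (Nat.lt_succ_self K))).1 (by linarith)
      have h5 : r * (K : ℝ) ≤ r * k := mul_le_mul_of_nonneg_left h3 hr0.le
      linarith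
    have hkd : r * (k : ℝ) ≤ d := by
      by_contra hcon
      have := (hc k hkK).1 (not_le.1 hcon)
      linarith
    have h6 := (hc k hkK).2 hkd
    have h7 : (a : ℝ) < (⌈α⌉ : ℝ) + ((∑ i, (w i - k) : ℕ) : ℝ) := by
      have : ((k : ℤ) : ℝ) = (k : ℝ) := by simp
      rw [this] at hu
      linarith
    exact_mod_cast h7
  obtain ⟨k, τ, hk, h0, h1⟩ := exists_tau r
  have h2 := (Mv_tau hr k hk).closed EP_closed hEP
  apply Pool.Agent.TH603.EL.Emp_key h0 h1
  rcases Nat.eq_zero_or_pos d with hd | hd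
  · -- degree zero
    subst hd
    obtain ⟨c', hc1', hc2'⟩ : ∃ c' : ℝ, 0 < c' ∧ c' < c := exists_between (by simpa using hc1)
    have h3 := h2.2 c' hc1' hc2' 0
    refine h3.mono ?_
    rintro m ⟨k1, k2, k3⟩
    refine ⟨k1, ?_, ?_⟩
    · simpa using k2
    · have : 0 ≤ c' * √(3 * (1 + τ) + 3 * (2 - τ)) := by positivity
      simp only [Nat.cast_zero, zero_mul] at k3
      linarith
  · have hd' : (0 : ℝ) < d := by exact_mod_cast hd
    have h3 := h2.2 d hd' hc1 (-((d : ℝ) * (1 + τ)))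
    have e1 : 3 * (1 + τ) + 3 * (2 - τ) = (3 : ℝ) ^ 2 := by ring
    rw [e1, Real.sqrt_sq (by norm_num)] at h3
    have e2 : -((d : ℝ) * (1 + τ)) + d * 3 = d * (2 - τ) := by ring
    rw [e2] at h3
    exact h3

/-- independence in the plane, irrational case -/
theorem Sur_plane_irr {ι : Type} [Fintype ι] {w : ι → ℕ} {d : ℕ} {r : ℝ} (hr : 3 ≤ r)
    (hirr : Irrational r)
    (h : ∀ k : ℕ, (∃ i, k < w i) → ((∑ i, (w i - k) : ℕ) : ℝ) + r ^ 2 * (k + 1) < r * (d + 3)) :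
    Sur w (TZ d) := by
  have hr0 : 0 < r := by linarith
  -- a slightly smaller size
  obtain ⟨c, hc0, hcd, hc⟩ : ∃ c : ℝ, 0 ≤ c ∧ c < d + 3 ∧ ∀ k : ℕ, (∃ i, k < w i) →
      ((∑ i, (w i - k) : ℕ) : ℝ) + r ^ 2 * (k + 1) ≤ c * r := by
    obtain ⟨N, hN⟩ : ∃ N : ℕ, ∀ k : ℕ, (∃ i, k < w i) → k < N := by
      refine ⟨∑ i, w i, ?_⟩
      rintro k ⟨i, hi⟩
      exact lt_of_lt_of_le hi (single_le_sum (f := w) (fun _ _ => Nat.zero_le _) (mem_univ i))
    have hev : ∀ᶠ c in 𝓝 ((d : ℝ) + 3), ∀ k ∈ range N, (∃ i, k < w i) →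
        ((∑ i, (w i - k) : ℕ) : ℝ) + r ^ 2 * (k + 1) < c * r := by
      rw [Filter.eventually_all_finset]
      intro k _
      by_cases h1 : ∃ i, k < w i
      · have h2 := h k h1
        have h3 : Filter.Tendsto (fun c : ℝ => c * r) (𝓝 ((d : ℝ) + 3)) (𝓝 (((d : ℝ) + 3) * r)) := by
          apply Continuous.tendsto
          fun_prop
        rw [mul_comm] at h2
        have h4 : ((∑ i, (w i - k) : ℕ) : ℝ) + r ^ 2 * (k + 1) < ((d : ℝ) + 3) * r := by
          have := h k h1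
          linarith
        filter_upwards [h3.eventually (Ioi_mem_nhds h4)] with c hc _ using hc
      · exact Filter.Eventually.of_forall fun c h2 => absurd h2 h1
    obtain ⟨ε, hε, hball⟩ := Metric.eventually_nhds_iff.1 hev
    have hd : (0 : ℝ) ≤ d := Nat.cast_nonneg d
    obtain ⟨c, hc1, hc2⟩ : ∃ c : ℝ, max 0 ((d : ℝ) + 3 - ε) < c ∧ c < d + 3 :=
      exists_between (max_lt (by linarith) (by linarith))
    refine ⟨c, (le_max_left _ _).trans hc1.le, hc2, fun k hk => ?_⟩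
    have hc3 := hball (y := c) (by
      rw [Real.dist_eq, abs_sub_comm, abs_of_pos (by linarith)]
      have := lt_of_le_of_lt (le_max_right (0 : ℝ) _) hc1
      linarith)
    exact (hc3 k (mem_range.2 (hN k hk)) hk).le
  have hSP : SP w c 0 (r ^ 2) := by
    refine ⟨by positivity, fun E hE α => ?_⟩
    rw [zero_add, Real.sqrt_sq hr0.le]
    apply Sur_final
    intro k hk
    have h1 := hc k hk
    have h2 : c * r < E * r := mul_lt_mul_of_pos_right hE hr0
    linarith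
  obtain ⟨k, τ, hk, h0, h1⟩ := exists_tau r
  have h2 := (Mv_tau hr k hk).closed (SP_closed hc0) hSP
  have h3 := h2.2 ((d : ℝ) + 3) hcd (-(((d : ℝ) + 3) * (1 + τ)))
  have e1 : 3 * (1 + τ) + 3 * (2 - τ) = (3 : ℝ) ^ 2 := by ring
  rw [e1, Real.sqrt_sq (by norm_num)] at h3
  have e2 : -(((d : ℝ) + 3) * (1 + τ)) + ((d : ℝ) + 3) * 3 = ((d : ℝ) + 3) * (2 - τ) := by ring
  rw [e2] at h3
  refine Sur_keyO h0 h1 ?_ h3
  intro hq
  obtain ⟨q, hq⟩ := hq
  apply hirr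
  refine ⟨(k + 3 * q) / 3, ?_⟩
  push_cast
  rw [hq]
  linarith

/-- **independence in the plane** -/
theorem Sur_plane {ι : Type} [Fintype ι] {w : ι → ℕ} {d : ℕ} {r : ℝ} (hr : 3 ≤ r)
    (h : ∀ k : ℕ, (∃ i, k < w i) → ((∑ i, (w i - k) : ℕ) : ℝ) + r ^ 2 * (k + 1) < r * (d + 3)) :
    Sur w (TZ d) := by
  obtain ⟨N, hN⟩ : ∃ N : ℕ, ∀ k : ℕ, (∃ i, k < w i) → k < N := by
    refine ⟨∑ i, w i, ?_⟩
    rintro k ⟨i, hi⟩
    exact lt_of_lt_of_le hi (single_le_sum (f := w) (fun _ _ => Nat.zero_le _) (mem_univ i))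
  have hev : ∀ᶠ s in 𝓝 r, ∀ k ∈ range N, (∃ i, k < w i) →
      ((∑ i, (w i - k) : ℕ) : ℝ) + s ^ 2 * (k + 1) < s * (d + 3) := by
    rw [Filter.eventually_all_finset]
    intro k _
    by_cases h1 : ∃ i, k < w i
    · have h2 := h k h1
      have h3 : Filter.Tendsto (fun s : ℝ => s * ((d : ℝ) + 3) -
          (((∑ i, (w i - k) : ℕ) : ℝ) + s ^ 2 * (k + 1))) (𝓝 r)
          (𝓝 (r * ((d : ℝ) + 3) - (((∑ i, (w i - k) : ℕ) : ℝ) + r ^ 2 * (k + 1)))) := by
        apply Continuous.tendsto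
        fun_prop
      filter_upwards [h3.eventually (Ioi_mem_nhds (a := 0) (by linarith))] with s hs _
      have hs' : 0 < s * ((d : ℝ) + 3) - (((∑ i, (w i - k) : ℕ) : ℝ) + s ^ 2 * (k + 1)) := hs
      linarith
    · exact Filter.Eventually.of_forall fun c h2 => absurd h2 h1
  obtain ⟨ε, hε, hball⟩ := Metric.eventually_nhds_iff.1 hev
  obtain ⟨s, hs, hs1, hs2⟩ := exists_irrational_btwn (show r < r + ε by linarith)
  have h2 := hball (y := s) (by rw [Real.dist_eq, abs_of_pos (by linarith)]; linarith)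
  exact Sur_plane_irr (by linarith) hs fun k hk => h2 k (mem_range.2 (hN k hk)) hk

end Pool.Agent.TH648.SH
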