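import Pool.Agent.H15.G.R_seed8.TH648.SH.Absorb

/-! Arbitrary multiplicities: emptiness and independence at general points. -/

namespace Pool.Agent.TH648.SH

open Finset Pool.Agent.TH176.Nag Pool.Agent.TH603.Sur Pool.Agent.TH603.Cut Pool.Agent.TH181.NagM
open Filter Topology

/-- the final criterion on right triangles, with room -/
theorem EP_of_rows {ι : Type} [Fintype ι] {w : ι → ℕ} {b K σ : ℝ} (hb : 0 ≤ b) (hK : 0 < K)
    (hσ : 0 < σ)
    (h : ∀ k : ℕ, K * k ≤ b → K * (b - K * k) < σ * ((∑ i, (w i - k) : ℕ) : ℝ)) :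
    ∃ b' : ℝ, b < b' ∧ EP w (b' / √σ) 0 (K ^ 2 / σ) := by
  obtain ⟨N, hN⟩ := exists_nat_gt (b / K)
  rw [div_lt_iff₀ hK] at hN
  have hev : ∀ᶠ c in 𝓝 b, ∀ k ∈ range (N + 1),
      (b < K * k → c < K * k) ∧
      (K * k ≤ b → K * (c - K * k) < σ * ((∑ i, (w i - k) : ℕ) : ℝ)) := by
    rw [Filter.eventually_all_finset]
    intro k _
    refine Filter.Eventually.and ?_ ?_
    · by_cases h1 : b < K * k
      · filter_upwards [Iio_mem_nhds h1] with c hc _ using hc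
      · exact Filter.Eventually.of_forall fun c h2 => absurd h2 h1
    · by_cases h1 : K * k ≤ b
      · have h2 := h k h1
        have h3 : Filter.Tendsto (fun c : ℝ => K * (c - K * k)) (𝓝 b) (𝓝 (K * (b - K * k))) := by
          apply Continuous.tendsto
          fun_prop
        filter_upwards [h3.eventually (Iio_mem_nhds h2)] with c hc _ using hc
      · exact Filter.Eventually.of_forall fun c h2 => absurd h2 h1
  obtain ⟨ε, hε, hball⟩ := Metric.eventually_nhds_iff.1 hev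
  obtain ⟨c, hc1, hc2⟩ : ∃ c : ℝ, b < c ∧ c < b + ε := exists_between (by linarith)
  have hc := hball (y := c) (by rw [Real.dist_eq, abs_of_pos (by linarith)]; linarith)
  refine ⟨c, hc1, ?_⟩
  have hs : 0 < √σ := Real.sqrt_pos.2 hσ
  have hss : √σ * √σ = σ := Real.mul_self_sqrt hσ.le
  have hMs : √(K ^ 2 / σ) = K / √σ := by
    rw [Real.sqrt_div (sq_nonneg _), Real.sqrt_sq hK.le]
  refine ⟨by rw [zero_add]; positivity, fun E hE0 hE α => ?_⟩
  rw [zero_add, hMs]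
  refine (Emp_rows w ⌈α⌉).mono ?_
  rintro ⟨x, y⟩ ⟨hy, hl, hu⟩
  simp only at hy hl hu
  obtain ⟨k, rfl⟩ := Int.eq_ofNat_of_zero_le hy
  rw [zero_mul, add_zero] at hl
  have h1 : ⌈α⌉ ≤ x := Int.ceil_le.2 hl
  refine ⟨by simp, h1, ?_⟩
  simp only [Int.toNat_natCast]
  have ek : ((k : ℤ) : ℝ) = (k : ℝ) := by simp
  rw [ek] at hu
  have hα := Int.le_ceil α
  rw [lt_div_iff₀ hs] at hE
  -- the base
  have hbase : E * (K / √σ) * σ = E * √σ * K := by
    rw [mul_div_assoc', div_mul_eq_mul_div, div_eq_iff hs.ne']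
    linear_combination (E * K) * hss.symm
  have hlt : E * (K / √σ) * σ < K * c := by
    rw [hbase, mul_comm K c]
    exact mul_lt_mul_of_pos_right hE hK
  have hrow : K ^ 2 / σ * k * σ = K ^ 2 * k := by
    rw [div_mul_eq_mul_div, div_mul_cancel₀ _ hσ.ne']
  have h2 : 0 ≤ E * (K / √σ) - K ^ 2 / σ * k := by linarith
  have h3 : 0 ≤ (E * (K / √σ) - K ^ 2 / σ * k) * σ := mul_nonneg h2 hσ.le
  rw [sub_mul, hrow] at h3
  have hkc : K * (k : ℝ) < c := by
    have h4 : K * (K * (k : ℝ)) < K * c := by nlinarith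
    exact lt_of_mul_lt_mul_left h4 hK.le
  have hkN : k ∈ range (N + 1) := by
    rw [mem_range]
    by_contra hcon
    have h4 : (N : ℝ) ≤ k := by exact_mod_cast (by omega : N ≤ k)
    have h5 := (hc N (mem_range.2 (Nat.lt_succ_self N))).1 (by linarith)
    have h6 : K * (N : ℝ) ≤ K * k := mul_le_mul_of_nonneg_left h4 hK.le
    linarith
  have hkb : K * (k : ℝ) ≤ b := by
    by_contra hcon
    have := (hc k hkN).1 (not_le.1 hcon)
    linarith
  have h6 := (hc k hkN).2 hkb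
  have h7 : E * (K / √σ) - K ^ 2 / σ * k < ((∑ i, (w i - k) : ℕ) : ℝ) := by
    have h8 : (E * (K / √σ) - K ^ 2 / σ * k) * σ < ((∑ i, (w i - k) : ℕ) : ℝ) * σ := by
      rw [sub_mul, hrow]
      nlinarith
    exact lt_of_mul_lt_mul_right h8 hσ.le
  have h9 : (x : ℝ) < (⌈α⌉ : ℝ) + ((∑ i, (w i - k) : ℕ) : ℝ) := by linarith
  exact_mod_cast h9

/-- the move for the slope sum `σ` -/
theorem Mv_sigma {K σ : ℝ} (hσ : 0 < σ) (hK : σ ≤ K) (s : ℤ) (hs : σ = s) :
    Mv (K - σ) (2 * σ - K) 0 (K ^ 2 / σ) := by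
  have hK0 : 0 < K := by linarith
  refine Mv.stepA 1 s isCoprime_one_left (by norm_num) ?_ ?_ (by linarith) ?_
  · rw [← hs]; push_cast; linarith
  · rw [← hs]; push_cast; linarith
  have e1 : ((1 : ℤ) : ℝ) * (((1 : ℤ) : ℝ) * (K - σ) + (s : ℝ)) = K := by
    rw [← hs]; push_cast; ring
  have e2 : ((s : ℝ) - ((1 : ℤ) : ℝ) * (2 * σ - K)) * (((1 : ℤ) : ℝ) * (K - σ) + (s : ℝ)) /
      (K - σ + (2 * σ - K)) = K ^ 2 / σ - K := by
    rw [← hs]
    push_cast
    have : (K - σ + (2 * σ - K) : ℝ) = σ := by ring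
    rw [this]
    field_simp
    ring
  rw [e1, e2]
  have h := Mv.toRT (μ := K) (ν := K ^ 2 / σ - K) (by
    have : 0 < K ^ 2 / σ := by positivity
    linarith)
  have e3 : K + (K ^ 2 / σ - K) = K ^ 2 / σ := by ring
  rw [e3] at h
  exact h

/-- absorbing several points -/
theorem Emp_absorbs {κ : Type} [Finite κ] {w : κ → ℕ} {β ν : ℝ} : ∀ (s : ℕ) (v : Fin s → ℕ) (α μ : ℝ),
    (s : ℝ) < μ + ν → Emp w (Reg (α + ((∑ j, v j : ℕ) : ℝ)) β (μ - s) ν) →
    Emp (Sum.elim v w) (Reg α β μ ν) := by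
  intro s
  induction s with
  | zero =>
    intro v α μ _ h
    refine Emp_emb (Sum.inr : κ → Fin 0 ⊕ κ) Sum.inr_injective (fun i => le_rfl) ?_
    simpa using h
  | succ s ih =>
    intro v α μ hs h
    push_cast at hs
    have h1 : Emp (Sum.elim (fun j : Fin s => v j.succ) w) (Reg (α + (v 0 : ℝ)) β (μ - 1) ν) := by
      apply ih _ _ _ (by linarith)
      have e1 : α + (v 0 : ℝ) + ((∑ j : Fin s, v j.succ : ℕ) : ℝ) = α + ((∑ j, v j : ℕ) : ℝ) := by
        rw [Fin.sum_univ_succ]; push_cast; ring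
      have e2 : μ - 1 - (s : ℝ) = μ - ((s + 1 : ℕ) : ℝ) := by push_cast; ring
      rw [e1, e2]
      exact h
    have h2 := Emp_absorb (α := α) (β := β) (μ := μ) (ν := ν) (v := v 0) (by
      have : (0 : ℝ) ≤ s := Nat.cast_nonneg s
      linarith) h1
    refine Emp_emb (Sum.elim (fun _ : Unit => Sum.inl 0)
      (Sum.elim (fun j : Fin s => Sum.inl j.succ) Sum.inr) : Unit ⊕ (Fin s ⊕ κ) → Fin (s + 1) ⊕ κ)
      ?_ ?_ h2
    · rintro (_ | j | i) (_ | j' | i') hij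
      · rfl
      · simp only [Sum.elim_inl, Sum.elim_inr, Sum.inl.injEq] at hij
        exact absurd hij (Fin.succ_ne_zero _).symm
      · simp at hij
      · simp only [Sum.elim_inl, Sum.elim_inr, Sum.inl.injEq] at hij
        exact absurd hij (Fin.succ_ne_zero _)
      · simp only [Sum.elim_inl, Sum.elim_inr, Sum.inl.injEq] at hij
        rw [Fin.succ_injective _ hij]
      · simp at hij
      · simp at hij
      · simp at hij
      · simp only [Sum.elim_inr, Sum.inr.injEq] at hij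
        rw [hij]
    · rintro (_ | j | i) <;> simp

/-- **emptiness in the plane, arbitrary multiplicities**: at most eight points are absorbed -/
theorem Emp_arb {κ : Type} [Fintype κ] {s : ℕ} (hs : s ≤ 8) (v : Fin s → ℕ) {w : κ → ℕ} {d : ℕ}
    {K : ℝ} (hK : 9 - (s : ℝ) ≤ K)
    (h : ∀ k : ℕ, K * k ≤ 3 * d - ((∑ j, v j : ℕ) : ℝ) →
      K * (3 * d - ((∑ j, v j : ℕ) : ℝ) - K * k) < (9 - s) * ((∑ i, (w i - k) : ℕ) : ℝ)) :
    Emp (Sum.elim v w) (TZ d) := by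
  have hs8 : (s : ℝ) ≤ 8 := by exact_mod_cast hs
  obtain ⟨σ, hσdef⟩ : ∃ σ : ℝ, σ = 9 - (s : ℝ) := ⟨_, rfl⟩
  have hσ : 0 < σ := by linarith
  have hσi : σ = ((9 - s : ℤ) : ℝ) := by rw [hσdef]; push_cast; ring
  rw [← hσdef] at hK h
  have hK0 : 0 < K := by linarith
  obtain ⟨b, hbdef⟩ : ∃ b : ℝ, b = 3 * d - ((∑ j, v j : ℕ) : ℝ) := ⟨_, rfl⟩
  rw [← hbdef] at h
  -- the slope of the tube
  obtain ⟨k0, τ, hk0, h0, h1⟩ := exists_tau (K / 3)
  have hk0' : K = k0 + 3 * τ := by linarith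
  apply Pool.Agent.TH603.EL.Emp_key h0 h1
  apply Emp_absorbs s v _ _ (by linarith)
  have eb : (d : ℝ) * (2 - τ) = -((d : ℝ) * (1 + τ)) + ((∑ j, v j : ℕ) : ℝ) + b := by
    rw [hbdef]; ring
  rw [eb]
  obtain ⟨α, hα⟩ : ∃ α : ℝ, α = -((d : ℝ) * (1 + τ)) + ((∑ j, v j : ℕ) : ℝ) := ⟨_, rfl⟩
  rw [← hα]
  rcases lt_or_ge b 0 with hb | hb
  · -- the region is empty
    refine (Emp_empty w).mono ?_
    rintro ⟨x, y⟩ ⟨h2, h3, h4⟩
    exfalso
    simp only at h2 h3 h4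
    have h5 : (0 : ℝ) ≤ y := by exact_mod_cast h2
    have h6 : 0 ≤ (9 - (s : ℝ)) * y := mul_nonneg (by linarith) h5
    nlinarith
  · obtain ⟨b', hb', hEP⟩ := EP_of_rows hb hK0 hσ h
    have hmv : Mv (3 * (1 + τ) - s) (3 * (2 - τ)) 0 (K ^ 2 / σ) := by
      refine Mv.shear (k0 - 12 + 2 * s) ?_
      have e1 : 3 * (1 + τ) - (s : ℝ) + ((k0 - 12 + 2 * s : ℤ) : ℝ) = K - σ := by
        rw [hk0', hσdef]; push_cast; ring
      have e2 : 3 * (2 - τ) - ((k0 - 12 + 2 * s : ℤ) : ℝ) = 2 * σ - K := by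
        rw [hk0', hσdef]; push_cast; ring
      rw [e1, e2]
      exact Mv_sigma hσ hK _ hσi
    have h2 := hmv.closed EP_closed hEP
    have hsq : 0 < √σ := Real.sqrt_pos.2 hσ
    have esum : 3 * (1 + τ) - (s : ℝ) + 3 * (2 - τ) = σ := by rw [hσdef]; ring
    have hR : ∀ B : ℝ, 0 < B → B < b' → Emp w (Reg α (α + B) (3 * (1 + τ) - s) (3 * (2 - τ))) := by
      intro B hB hBb
      have h3 := h2.2 (B / √σ) (by positivity) ((div_lt_div_iff_of_pos_right hsq).2 hBb) α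
      rw [esum, div_mul_cancel₀ _ hsq.ne'] at h3
      exact h3
    rcases hb.eq_or_lt with hb0 | hb0
    · obtain ⟨B, hB1, hB2⟩ := exists_between (show (0 : ℝ) < b' by linarith)
      refine (hR B hB1 hB2).mono ?_
      rintro m ⟨k1, k2, k3⟩
      exact ⟨k1, k2, by linarith⟩
    · exact hR b hb0 hb'

end Pool.Agent.TH648.SH
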